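import Pool.Agent.Run7.h27.Main3

/-!
# The volume conjecture for all compact hyperbolic tetrahedra
-/

set_option autoImplicit false

open Real Set Filter Topology Run7.h27

/-- Let `v` be the vertices, in the open unit ball (projective model), of a compact hyperbolic
tetrahedron with dihedral angles `θ i j` at the edge joining `v i` and `v j`. Then for all
admissible colourings `c r` of the tetrahedral graph such that `2 π c r i j / r` converges to
`π + θ i j` or to `π - θ i j` for each edge, `(2 π / r) ln |⟨Γ, c r⟩|` converges to the volume. -/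
theorem Pool.Agent.Results.MP_b0afd3_gt.AllCompactTetrahedra.result
    (v : Fin 4 → Fin 3 → ℝ) (θ : Fin 4 → Fin 4 → ℝ)
    (hv : ∀ k, ∑ i, v k i ^ 2 < 1) (hθ : IsDihedral v θ)
    (c : ℕ → Fin 4 → Fin 4 → ℕ)
    (hadm : ∀ r : ℕ, Odd r → 3 ≤ r → AdmColoring r (c r))
    (hc : ∀ i j, i ≠ j →
      (Tendsto (fun r : ℕ => 2 * π * (c r i j : ℝ) / r) (atTop ⊓ 𝓟 {r | Odd r}) (𝓝 (π + θ i j)) ∨
        Tendsto (fun r : ℕ => 2 * π * (c r i j : ℝ) / r) (atTop ⊓ 𝓟 {r | Odd r}) (𝓝 (π - θ i j)))) :
    Tendsto (fun r : ℕ => 2 * π / r * Real.log (absBracket r (c r))) (atTop ⊓ 𝓟 {r | Odd r})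
      (𝓝 (hvol (convexHull ℝ (range v)))) := by
  have e : oddTop = atTop ⊓ 𝓟 {r | Odd r} := rfl
  rw [← e] at hc ⊢
  apply compact_growth hv hθ
  refine ⟨ev_of_ge 3 (fun r h1 h2 => hadm r h2 h1), ?_⟩
  intro i j hij
  rcases hc i j hij with h | h
  · left
    exact h.congr (fun r => by ring)
  · right
    exact h.congr (fun r => by ring)
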